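import Pool.Agent.H23.CL.Corr
import Pool.Agent.H23.CL.FormsD
import Pool.Agent.H15.UC.Cont
import Pool.Agent.H15.UC.Ucp
import Pool.Agent.H15.UC.PlaneD
import Pool.Agent.H15.UC.Lead
import Pool.Agent.H24.UC.StCore
import Pool.Agent.H51.UC.CellD
import Pool.Agent.H51.UC.GaussD
import Pool.Agent.H68.UC.SeriesD

/-!
# Clusters of levels of random metrics on a closed surface

Let `(M, g)` be a closed connected surface with a continuous Riemannian metric and isothermal charts
(for instance a smooth metric of negative curvature). For a continuous function `φ` on `M` consider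
the metric `exp φ · g`, its Laplace eigenvalues `lam 0 ≤ lam 1 ≤ ...` and its unfolded levels
`x j = Area · lam j / (4 π)`. Let `φ` be random with the law `P` on `C(M)`, and let `S` be a set of
functions with dense linear span such that for all linearly independent `h 1, ..., h d` in `S` the law
of `φ` is the law of `ψ + ξ 1 h 1 + ... + ξ d h d`, where `ψ` is independent of the random vector
`(ξ 1, ..., ξ d)`, which has a bounded density. Nondegenerate Gaussian measures have this property.
Let `K` be a compact subset of `C(M)`.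

* The probability that `φ ∈ K` and that the `n + 1` consecutive levels `x q, ..., x (q + n)` lie in
  an interval of length `ε` is at most `C ε ^ s` with `s = 2 n + ⌊n² / 4⌋`, for every `n ≥ 1` and every
  `q`. The mean on `K` of the `(n + 1)`-point correlation measure at any height `T` gives at most the
  mass `C ε ^ s` to the cube `[-ε, ε] ^ n`.
* For random series `φ = ∑ ξ j h j` with `∑ ‖h j‖ < ∞`, with dense linear span of the `h j` and with
  independent `ξ j` in `[-1, 1]` with bounded densities, all this holds without the condition `φ ∈ K`.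

For Poisson statistics the exponent is `n`, for the GOE it is `n (n + 3) / 2`. So for pairs (`n = 1`)
and triples (`n = 2`) the exponents `2` and `5` are those of the GOE, and for larger clusters the
exponent `s = n (n + 3) / 2 - ⌊(n - 1)² / 4⌋` grows quadratically, as for random matrices.

Idea of the proof. The sum of the inverses of the positive levels up to `x q` is, up to a quadratic
error, a convex function on the affine spaces parallel to `h 1, ..., h d` (Ky Fan's maximum
principle). If the levels `x q, ..., x (q + n)` lie in an interval of length `ε`, then trial functions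
show that its graph lies above a cone, up to `O(ε)`; the opening of the cone is bounded from below
if no combination `h ≠ 0` of `h 1, ..., h d` acts on the eigenfunctions `u q, ..., u (q + n)` by a
matrix `(∫ h u_i u_j)` which is nearly scalar. A function with bounded subgradients has such cones
only at the points of a set of volume `O(ε ^ d)`. By compactness it is enough to find such directions
for the metrics for which `x q = ... = x (q + n)`. There `d + 1` can be the dimension of the
space which is spanned by the products `u_i u_j` of `n + 1` eigenfunctions of one eigenvalue, and this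
dimension is at least `2 n + ⌊n² / 4⌋ + 1`: at every point a combination of the eigenfunctions has a
leading term `Re (c z ^ N)` (theorem of Bers, Hartman and Wintner), with at most two independent ones
for each order `N`, so that one can choose a basis and so many products of its elements that their
leading terms are linearly independent.
-/

set_option autoImplicit false

open Set Filter Topology MeasureTheory ProbabilityTheory
open scoped ENNReal NNReal
open Pool.Agent.Y262.QE

noncomputable section

namespace Pool.Agent.Results.MP_a825e8_mp.ClusterRepulsion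

/-- `u 0, u 1, ...` is an orthonormal basis of `L² (μ)` which consists of eigenfunctions of the
Laplacian of the surface `D` with the area `μ`; the eigenvalues `lam 0 ≤ lam 1 ≤ ...` are ordered -/
structure IsEigenbasis {M : Type} [MeasurableSpace M] (D : Data M) (μ : Measure M)
    (u : ℕ → M → ℝ) (lam : ℕ → ℝ) : Prop where
  eig : ∀ j, D.IsEig μ (lam j) (u j)
  mono : Monotone lam
  orth : ∀ i j, ∫ x, u i x * u j x ∂μ = if i = j then 1 else 0
  total : ∀ f : M → ℝ, MemLp f 2 μ → (∀ j, ∫ x, f x * u j x ∂μ = 0) → f =ᵐ[μ] 0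

/-- the surface with the metric `exp φ · g` -/
def surf {M : Type} [TopologicalSpace M] (D : Data M) (φ : C(M, ℝ)) : Data M :=
  D.conf fun x => Real.exp (φ x)

/-- the area of the metric `exp φ · g` -/
def area {M : Type} [TopologicalSpace M] [MeasurableSpace M] (μ : Measure M) (φ : C(M, ℝ)) :
    Measure M :=
  wm μ fun x => Real.exp (φ x)

/-- `x 0 ≤ x 1 ≤ ...` are the unfolded levels `Area · lam j / (4 π)` of the metric `exp φ · g` -/
def IsUnfolded {M : Type} [TopologicalSpace M] [MeasurableSpace M] (D : Data M) (μ : Measure M)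
    (φ : C(M, ℝ)) (x : ℕ → ℝ) : Prop :=
  ∃ (u : ℕ → M → ℝ) (lam : ℕ → ℝ), IsEigenbasis (surf D φ) (area μ φ) u lam ∧
    ∀ j, x j = (area μ φ).real univ * lam j / (4 * Real.pi)

/-- all the charts of the surface are isothermal: in the chart `i` the metric at `z` is
`‖D.A i z v‖ ²`, and it is a multiple of the flat metric `‖v‖ ²` -/
def Isothermal {M : Type} (D : Data M) : Prop :=
  ∀ i, ∀ z ∈ D.T i, ∃ c : ℝ, ∀ v, ‖D.A i z v‖ = c * ‖v‖

/-- `P` is the law of `ψ + ∑ j, ξ j h j` with independent `ψ` and `ξ`, where `ψ` has the law `Q` and the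
random vector `ξ` of `ℝ ^ d` has a law `ν` with a bounded density -/
def BoundedDensity {E : Type} [AddCommGroup E] [Module ℝ E] [MeasurableSpace E]
    (P : Measure E) {d : ℕ} (h : Fin d → E) : Prop :=
  ∃ (Q : Measure E) (ν : Measure (EuclideanSpace ℝ (Fin d))) (c : ℝ≥0), IsProbabilityMeasure Q ∧
    IsProbabilityMeasure ν ∧ (∀ A, ν A ≤ c * volume A) ∧
    P = (Q.prod ν).map fun p => p.1 + ∑ j, p.2 j • h j

/-- for any linearly independent `h 1, ..., h d` in `S`, and any `d`, the measure `P` is the law of a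
sum as in `BoundedDensity` -/
def BoundedDensities {E : Type} [AddCommGroup E] [Module ℝ E] [MeasurableSpace E]
    (P : Measure E) (S : Set E) : Prop :=
  ∀ (d : ℕ) (h : Fin d → E), (∀ j, h j ∈ S) → LinearIndependent ℝ h → BoundedDensity P h

/-- the `(n + 1)`-point correlation measure of the levels at the height `T`: `1 / T` times the sum of
the unit masses at the points `(x (k 1) - x (k 0), ..., x (k n) - x (k 0))` of `ℝ ^ n` over the
`(n + 1)`-tuples of different indices `k 0, ..., k n` with `x (k j) ≤ T` -/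
def correlation (n : ℕ) (T : ℝ) (x : ℕ → ℝ) : Measure (Fin n → ℝ) :=
  ENNReal.ofReal T⁻¹ • Measure.sum
    fun k : {k : Fin (n + 1) → ℕ // Function.Injective k ∧ ∀ j, x (k j) ≤ T} =>
      Measure.dirac fun j : Fin n => x (k.1 j.succ) - x (k.1 0)

/-- the bound with the exponent `s` for clusters of `n + 1` of the levels `x φ 0 ≤ x φ 1 ≤ ...`, where
`φ` is random with the law `P`, on the set `K`: the probability that `φ ∈ K` and that the levels
`x φ q, ..., x φ (q + n)` lie in an interval of length `ε` is at most `C ε ^ s`, and the mean on `K` of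
the `(n + 1)`-point correlation measure at the height `T` gives at most the mass `C ε ^ s` to the cube
`[-ε, ε] ^ n`; here `C = C(q)` or `C(T)` does not depend on `ε` -/
def ClusterBound {E : Type} [MeasurableSpace E] (P : Measure E) (K : Set E) (x : E → ℕ → ℝ)
    (n s : ℕ) : Prop :=
  (∀ q : ℕ, ∃ C : ℝ, ∀ ε > 0,
    P {φ | φ ∈ K ∧ x φ (q + n) - x φ q ≤ ε} ≤ ENNReal.ofReal (C * ε ^ s)) ∧
  ∀ T : ℝ, ∃ C : ℝ, ∀ ε > 0,
    ∫⁻ φ in K, correlation n T (x φ) {y | ∀ j, |y j| ≤ ε} ∂P ≤ ENNReal.ofReal (C * ε ^ s)

/-- clusters of `n + 1` levels are bounded with the exponent `2 n + ⌊n² / 4⌋` for every `n ≥ 1` -/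
def ClusterBounds {E : Type} [MeasurableSpace E] (P : Measure E) (K : Set E)
    (x : E → ℕ → ℝ) : Prop :=
  ∀ n : ℕ, 1 ≤ n → ClusterBound P K x n (2 * n + n ^ 2 / 4)

/-- the law of the random series `∑ ξ n h n`, where the `ξ n` are independent with the laws `ν n` -/
def seriesLaw {E : Type} [AddCommGroup E] [Module ℝ E] [TopologicalSpace E] [MeasurableSpace E]
    (h : ℕ → E) (ν : ℕ → Measure ℝ) : Measure E :=
  (Measure.infinitePi ν).map fun ξ : ℕ → ℝ => ∑' n, ξ n • h n

theorem result (M : Type) [MetricSpace M] [CompactSpace M] [ConnectedSpace M] [MeasurableSpace M]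
    [BorelSpace M] (μ : Measure M) (D : Data M) (hD : D.IsSurf μ) (hiso : Isothermal D) :
    (∀ φ : C(M, ℝ), (surf D φ).IsSurf (area μ φ) ∧ ∃ x, IsUnfolded D μ φ x) ∧
    ∀ [MeasurableSpace C(M, ℝ)] [BorelSpace C(M, ℝ)] (x : C(M, ℝ) → ℕ → ℝ),
      (∀ φ, IsUnfolded D μ φ (x φ)) →
      -- laws with bounded densities
      (∀ (P : Measure C(M, ℝ)) [IsProbabilityMeasure P] (S : Set C(M, ℝ)),
        Dense (Submodule.span ℝ S : Set C(M, ℝ)) → BoundedDensities P S →
          ∀ K : Set C(M, ℝ), IsCompact K → ClusterBounds P K x) ∧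
      -- nondegenerate Gaussian measures
      (∀ (P : Measure C(M, ℝ)) [IsGaussian P],
        (∀ L : StrongDual ℝ C(M, ℝ), L ≠ 0 → 0 < Var[L; P]) →
          ∀ K : Set C(M, ℝ), IsCompact K → ClusterBounds P K x) ∧
      -- random series
      ∀ (h : ℕ → C(M, ℝ)) (ν : ℕ → Measure ℝ), (∀ n, IsProbabilityMeasure (ν n)) →
        Dense (Submodule.span ℝ (range h) : Set C(M, ℝ)) → Summable (fun n => ‖h n‖) →
        (∀ n, ν n (Icc (-1) 1)ᶜ = 0) → (∀ n, ∃ c : ℝ≥0, ∀ A, ν n A ≤ c * volume A) →
        IsProbabilityMeasure (seriesLaw h ν) ∧ ClusterBounds (seriesLaw h ν) univ x := by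
  refine ⟨fun φ => ⟨(Pool.Agent.Y262.QE.tConf M μ D hD _
    (Real.continuous_exp.comp φ.continuous) fun x => Real.exp_pos _).1, ?_⟩, ?_⟩
  · obtain ⟨u, lam, h⟩ := Pool.Agent.Y264.QR.tEx M μ D hD inferInstance φ
    exact ⟨fun j => (area μ φ).real univ * lam j / (4 * Real.pi), u, lam,
      ⟨h.eig, h.mono, h.orth, h.total⟩, fun j => rfl⟩
  intro _ _ x hx
  have hx' : Pool.Agent.H23.LR.Lev μ D x := by
    intro φ
    obtain ⟨u, lam, hu, hl⟩ := hx φ
    exact ⟨u, lam, ⟨hu.eig, hu.mono, hu.orth, hu.total⟩, hl⟩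
  have hle : ∀ {F : Type} [MeasureSpace F] (ν : Measure F) (c : ℝ≥0),
      (∀ A, ν A ≤ c * volume A) → ν ≤ (c : ℝ≥0∞) • (volume : Measure F) := by
    intro F _ ν c h
    refine Measure.le_iff.2 fun A _ => ?_
    rw [Measure.smul_apply, smul_eq_mul]
    exact h A
  -- the products of the eigenfunctions
  have hr1 : ∀ r : ℕ, Pool.Agent.H23.CL.RichS μ D r (2 * (r + 1) + (r + 1) ^ 2 / 4) := by
    intro r hf i a b hS hi ha hB
    exact Pool.Agent.H23.CL.rich_lead Pool.Agent.H15.UC.stCont Pool.Agent.H15.UC.stUCP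
      (Pool.Agent.H23.CL.leadO_of Pool.Agent.H15.UC.stLead) Pool.Agent.H24.UC.stCore hD hiso hS hi ha hB r
  -- compact sets
  have hcp : ∀ (P : Measure C(M, ℝ)) [IsProbabilityMeasure P] (S : Set C(M, ℝ)),
      Dense (Submodule.span ℝ S : Set C(M, ℝ)) →
      (∀ (d : ℕ) (h : Fin d → C(M, ℝ)), (∀ j, h j ∈ S) → LinearIndependent ℝ h →
        Pool.Agent.H23.UC.BdDirD P h) →
      ∀ K : Set C(M, ℝ), IsCompact K → ClusterBounds P K x := by
    intro P _ S hS hP K hK n hn
    obtain ⟨r, rfl⟩ : ∃ r, n = r + 1 := ⟨n - 1, by omega⟩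
    obtain ⟨g1, g2⟩ := Pool.Agent.H23.CL.cl_all Pool.Agent.H15.UC.stPlaneD
      Pool.Agent.H51.UC.stCellD hD (by omega) (hr1 r) hS (hP _) hK hx'
    exact ⟨g1, g2⟩
  refine ⟨fun P _ S hS hP K hK => ?_, fun P _ hvar K hK => ?_, fun h ν hν hS hsum hν1 hνb => ?_⟩
  · refine hcp P S hS (fun d h hh hind => ?_) K hK
    obtain ⟨Q, ν, c, hQ, hν, hb, hPe⟩ := hP d h hh hind
    exact ⟨Q, ν, c, hQ, hν, ENNReal.coe_ne_top, hle ν c hb, hPe⟩
  · obtain ⟨S, hS, hP⟩ := Pool.Agent.H51.UC.stGaussD C(M, ℝ) P hvar
    exact hcp P S hS hP K hK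
  · have hνb' : ∀ n, ∃ c : ℝ≥0∞, c ≠ ⊤ ∧ ν n ≤ c • (volume : Measure ℝ) := by
      intro n
      obtain ⟨c, hc⟩ := hνb n
      exact ⟨c, ENNReal.coe_ne_top, hle _ c hc⟩
    obtain ⟨hP, ⟨K, hK, hK0⟩, -⟩ := Pool.Agent.H68.UC.stSeries C(M, ℝ) h ν hνb' hν1 hsum
    have hd := Pool.Agent.H68.UC.stSeriesD C(M, ℝ) h ν hνb' hν1 hsum
    have hdir : ∀ (d : ℕ) (g : Fin d → C(M, ℝ)), (∀ j, g j ∈ range h) → LinearIndependent ℝ g →
        Pool.Agent.H23.UC.BdDirD (seriesLaw h ν) g := by
      intro d g hg hind
      choose n hn using hg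
      have hinj : Function.Injective n := by
        intro j l hjl
        refine hind.injective ?_
        rw [← hn j, ← hn l, hjl]
      have h1 := hd d n hinj
      simp only [hn] at h1
      exact h1
    have hP' : IsProbabilityMeasure (seriesLaw h ν) := hP
    refine ⟨hP, fun n hn => ?_⟩
    obtain ⟨r, rfl⟩ : ∃ r, n = r + 1 := ⟨n - 1, by omega⟩
    obtain ⟨g1, g2⟩ := Pool.Agent.H23.CL.cl_univ (P := seriesLaw h ν)
      Pool.Agent.H15.UC.stPlaneD Pool.Agent.H51.UC.stCellD hD (by omega) (hr1 r) hS (hdir _) hK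
      hK0 hx'
    refine ⟨fun q => ?_, fun T => ?_⟩
    · obtain ⟨C, hC⟩ := g1 q
      refine ⟨C, fun ε hε => le_trans (le_of_eq ?_) (hC ε hε)⟩
      simp only [mem_univ, true_and]
    · obtain ⟨C, hC⟩ := g2 T
      refine ⟨C, fun ε hε => ?_⟩
      rw [Measure.restrict_univ]
      exact hC ε hε

end Pool.Agent.Results.MP_a825e8_mp.ClusterRepulsion
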