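import Pool.Agent.H23.RM.Top
import Pool.Agent.H23.RM.Poly

/-!
# All joint laws of the unfolded levels of random metrics on a closed surface

Let `(M, g)` be a closed surface with a continuous Riemannian metric and isothermal charts (for
instance a smooth metric of negative curvature). For a continuous function `φ` on `M` consider the
metric `exp φ · g`, its Laplace eigenvalues `lam 0 ≤ lam 1 ≤ ...` and its unfolded levels
`x j = Area · lam j / (4 π)`.

Let `P` be a Borel probability measure on `C(M)` which is quasi-invariant under the translations by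
the multiples of the functions of a set `S` with dense linear span (for instance a nondegenerate
Gaussian measure and its Cameron-Martin space; the measure may be carried by the smooth functions).
Then

* almost surely the positive eigenvalues are simple, and the constant function and the squares of
  all their eigenfunctions are linearly independent;
* for every `n` and every Lebesgue null set `N` of `ℝ^n`, almost surely no `n`-tuple of different
  positive levels lies in `N`: all joint laws of the levels are absolutely continuous;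
* almost surely the positive levels are algebraically independent over a given countable field;
* for all `n` the mean values (over the random metric) of the `n`-point correlation measure of the
  levels, and of the measures of the differences `(x_{k_1} - x_{k_0}, ..., x_{k_n} - x_{k_0})` with all
  levels `≤ T`, vanish on null sets.

Idea of the proof. Almost every point `φ` of a Borel set `A` of `C(M)` is, on the lines through `φ` in
countably many dense directions, a limit of other points of `A` (Fubini's theorem and
quasi-invariance). If the square of the eigenfunction `j₀` depended linearly on the squares of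
finitely many others, for the `φ` of a set of positive probability, then this relation could be
differentiated at a point `φ` of this set in all directions `y`, along points `φ + t y'` of the set,
`t → 0`, `y' → y`; the derivative in the direction of rapidly oscillating functions gives new
relations, in which the coefficients are multiplied by the eigenvalues, and a contradiction. So at
almost every `φ` the derivatives of any `n` levels are linearly independent; the inverse image of a
null set under the tuple of levels is then null on small pieces of `n`-dimensional slices, and by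
Fubini's theorem it has probability zero.

The spectral theory and the oscillating functions are from the library (`GenericLevels`,
`RandomSpacings`).
-/

set_option autoImplicit false

open Set Filter Topology MeasureTheory
open scoped Pointwise
open Pool.Agent.Y262.QE

noncomputable section

namespace Pool.Agent.Results.MP_a825e8_mp.JointLaws

/-- `u 0, u 1, ...` is an orthonormal basis of `L² (μ)` which consists of eigenfunctions of the
Laplacian of the surface `D` with the area `μ`; the eigenvalues `lam 0 ≤ lam 1 ≤ ...` are ordered -/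
structure IsEigenbasis {M : Type} [MeasurableSpace M] (D : Data M) (μ : Measure M)
    (u : ℕ → M → ℝ) (lam : ℕ → ℝ) : Prop where
  eig : ∀ j, D.IsEig μ (lam j) (u j)
  mono : Monotone lam
  orth : ∀ i j, ∫ x, u i x * u j x ∂μ = if i = j then 1 else 0
  total : ∀ f : M → ℝ, MemLp f 2 μ → (∀ j, ∫ x, f x * u j x ∂μ = 0) → f =ᵐ[μ] 0

/-- the surface with the metric `exp φ · g` -/
def surf {M : Type} [TopologicalSpace M] (D : Data M) (φ : C(M, ℝ)) : Data M :=
  D.conf fun x => Real.exp (φ x)

/-- the area of the metric `exp φ · g` -/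
def area {M : Type} [TopologicalSpace M] [MeasurableSpace M] (μ : Measure M) (φ : C(M, ℝ)) :
    Measure M :=
  wm μ fun x => Real.exp (φ x)

/-- the unfolded level of the eigenvalue `lam` of the metric `exp φ · g` -/
def level {M : Type} [TopologicalSpace M] [MeasurableSpace M] (μ : Measure M) (φ : C(M, ℝ))
    (lam : ℝ) : ℝ :=
  (area μ φ).real univ * lam / (4 * Real.pi)

/-- `x 0 ≤ x 1 ≤ ...` are the unfolded levels of the metric `exp φ · g` -/
def IsUnfolded {M : Type} [TopologicalSpace M] [MeasurableSpace M] (D : Data M) (μ : Measure M)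
    (φ : C(M, ℝ)) (x : ℕ → ℝ) : Prop :=
  ∃ (u : ℕ → M → ℝ) (lam : ℕ → ℝ), IsEigenbasis (surf D φ) (area μ φ) u lam ∧
    ∀ j, x j = level μ φ (lam j)

/-- all the charts of the surface are isothermal: in the chart `i` the metric at `z` is
`‖D.A i z v‖ ²`, and it is a multiple of the flat metric `‖v‖ ²` -/
def Isothermal {M : Type} (D : Data M) : Prop :=
  ∀ i, ∀ z ∈ D.T i, ∃ c : ℝ, ∀ v, ‖D.A i z v‖ = c * ‖v‖

/-- the `n`-point correlation measure of the positive levels: the sum of the unit masses at the
points `(x (p 0), ..., x (p (n - 1)))` over the `n`-tuples `p` of different indices with positive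
levels -/
def correlation (n : ℕ) (x : ℕ → ℝ) : Measure (Fin n → ℝ) :=
  Measure.sum fun p : {p : Fin n → ℕ // Function.Injective p ∧ ∀ l, 0 < x (p l)} =>
    Measure.dirac fun l => x (p.1 l)

/-- the correlation measure of the problem at the height `T`: `1 / T` times the sum of the unit
masses at the points `(x (p 1) - x (p 0), ..., x (p n) - x (p 0))` over the tuples of different
indices with positive levels at most `T` -/
def differences (n : ℕ) (T : ℝ) (x : ℕ → ℝ) : Measure (Fin n → ℝ) :=
  ENNReal.ofReal T⁻¹ • Measure.sum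
    fun p : {p : Fin (n + 1) → ℕ // Function.Injective p ∧ ∀ l, 0 < x (p l) ∧ x (p l) ≤ T} =>
      Measure.dirac fun l : Fin n => x (p.1 l.succ) - x (p.1 0)

lemma correlation_zero {n : ℕ} {x : ℕ → ℝ} {N : Set (Fin n → ℝ)}
    (h : ∀ p : Fin n → ℕ, Function.Injective p → (∀ l, 0 < x (p l)) → (fun l => x (p l)) ∉ N) :
    correlation n x N = 0 := by
  unfold correlation
  rw [Measure.sum_apply_eq_zero]
  rintro ⟨p, hp, hl⟩
  rw [Measure.dirac_apply, indicator_of_notMem (h p hp hl)]

lemma differences_zero {n : ℕ} {T : ℝ} {x : ℕ → ℝ} {N : Set (Fin n → ℝ)}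
    (h : ∀ p : Fin (n + 1) → ℕ, Function.Injective p → (∀ l, 0 < x (p l)) →
      (fun l : Fin n => x (p l.succ) - x (p 0)) ∉ N) : differences n T x N = 0 := by
  unfold differences
  rw [Measure.smul_apply, smul_eq_mul]
  convert mul_zero _
  rw [Measure.sum_apply_eq_zero]
  rintro ⟨p, hp, hl⟩
  rw [Measure.dirac_apply, indicator_of_notMem (h p hp fun l => (hl l).1)]

theorem result (M : Type) [MetricSpace M] [CompactSpace M] [MeasurableSpace M] [BorelSpace M]
    [Nonempty M] (μ : Measure M) (D : Data M) (hD : D.IsSurf μ) (hiso : Isothermal D) :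
    (∀ φ : C(M, ℝ), (surf D φ).IsSurf (area μ φ) ∧ ∃ x, IsUnfolded D μ φ x) ∧
    ∀ [MeasurableSpace C(M, ℝ)] [BorelSpace C(M, ℝ)] (P : Measure C(M, ℝ)) [IsProbabilityMeasure P]
      (S : Set C(M, ℝ)), Dense (Submodule.span ℝ S : Set C(M, ℝ)) →
      (∀ h ∈ S, ∀ t : ℝ, P.map (fun φ => φ + t • h) ≪ P) →
    (∀ᵐ φ ∂P, ∀ (u : ℕ → M → ℝ) (lam : ℕ → ℝ), IsEigenbasis (surf D φ) (area μ φ) u lam →
      (∀ j, 0 < lam j → lam j < lam (j + 1)) ∧
      ∀ (J : Finset ℕ) (c₀ : ℝ) (c : ℕ → ℝ), (∀ j ∈ J, 0 < lam j) →
        (∀ᵐ y ∂(area μ φ), c₀ + ∑ j ∈ J, c j * (u j y) ^ 2 = 0) → c₀ = 0 ∧ ∀ j ∈ J, c j = 0) ∧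
    (∀ (n : ℕ) (N : Set (Fin n → ℝ)), volume N = 0 → ∀ᵐ φ ∂P, ∀ x, IsUnfolded D μ φ x →
      ∀ p : Fin n → ℕ, Function.Injective p → (∀ l, 0 < x (p l)) → (fun l => x (p l)) ∉ N) ∧
    (∀ K : Subfield ℝ, Countable K → ∀ᵐ φ ∂P, ∀ x, IsUnfolded D μ φ x →
      AlgebraicIndependent K fun j : {j : ℕ // 0 < x j} => x j.1) ∧
    ∀ x : C(M, ℝ) → ℕ → ℝ, (∀ φ, IsUnfolded D μ φ (x φ)) → ∀ (n : ℕ) (N : Set (Fin n → ℝ)),
      volume N = 0 → ∫⁻ φ, correlation n (x φ) N ∂P = 0 ∧
        ∀ T : ℝ, ∫⁻ φ, differences n T (x φ) N ∂P = 0 := by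
  have hbasis : ∀ φ : C(M, ℝ), ∃ x, IsUnfolded D μ φ x := by
    intro φ
    obtain ⟨u, lam, h⟩ := Pool.Agent.Y264.QR.tEx M μ D hD inferInstance φ
    exact ⟨fun j => level μ φ (lam j), u, lam, ⟨h.eig, h.mono, h.orth, h.total⟩, fun j => rfl⟩
  have hpos : ∀ {φ : C(M, ℝ)} {l : ℝ}, 0 < level μ φ l → 0 < l := by
    intro φ l hl
    by_contra hn
    refine absurd hl (not_lt.2 ?_)
    unfold level
    refine div_nonpos_of_nonpos_of_nonneg ?_ (by positivity)
    exact mul_nonpos_of_nonneg_of_nonpos measureReal_nonneg (not_lt.1 hn)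
  refine ⟨fun φ => ⟨(Pool.Agent.Y262.QE.tConf M μ D hD _
    (Real.continuous_exp.comp φ.continuous) fun x => Real.exp_pos _).1, hbasis φ⟩, ?_⟩
  intro _ _ P _ S hS hP
  obtain ⟨h1, -⟩ := Pool.Agent.Q233.RSP.top μ D hD P S hS hP
  obtain ⟨g1, g2⟩ := Pool.Agent.H23.RM.rtop μ D hD hiso P S hS hP
  have htup : ∀ (n : ℕ) (N : Set (Fin n → ℝ)), volume N = 0 → ∀ᵐ φ ∂P, ∀ x, IsUnfolded D μ φ x →
      ∀ p : Fin n → ℕ, Function.Injective p → (∀ l, 0 < x (p l)) → (fun l => x (p l)) ∉ N := by
    intro n N hN
    have hN' : volume ((4 * Real.pi) • N) = 0 := by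
      rw [Measure.addHaar_smul, hN, mul_zero]
    filter_upwards [g2 n _ hN'] with φ h x hx p hp hl hmem
    obtain ⟨u, lam, hu, hxl⟩ := hx
    refine h u lam ⟨hu.eig, hu.mono, hu.orth, hu.total⟩ p hp (fun l => ?_) ?_
    · have h2 := hl l
      rw [hxl] at h2
      exact hpos h2
    · refine ⟨_, hmem, ?_⟩
      have h4 : (4 * Real.pi) ≠ 0 := by positivity
      funext l
      simp only [Pi.smul_apply, smul_eq_mul, hxl, level, area]
      field_simp
  refine ⟨?_, htup, ?_, ?_⟩
  · filter_upwards [h1, g1] with φ h h' u lam hu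
    have hu' : Pool.Agent.Y264.QR.EigBasis (D.conf fun y => Real.exp (φ y))
        (wm μ fun y => Real.exp (φ y)) u lam := ⟨hu.eig, hu.mono, hu.orth, hu.total⟩
    refine ⟨h u lam hu', fun J c₀ c hlam hae => h' u lam hu' J c₀ c hlam ?_⟩
    have hm : Measurable fun y => ENNReal.ofReal (Real.exp (φ y)) :=
      ((Real.continuous_exp.comp φ.continuous).measurable).ennreal_ofReal
    unfold area wm at hae
    rw [ae_withDensity_iff hm] at hae
    filter_upwards [hae] with y hy
    exact hy (by
      rw [Ne, ENNReal.ofReal_eq_zero, not_le]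
      exact Real.exp_pos _)
  · intro K hK
    have := hK
    have h5 : ∀ᵐ φ ∂P, ∀ n : ℕ, ∀ Q : MvPolynomial (Fin n) K, Q ≠ 0 → ∀ x, IsUnfolded D μ φ x →
        ∀ p : Fin n → ℕ, Function.Injective p → (∀ l, 0 < x (p l)) →
        (fun l => x (p l)) ∉ {s : Fin n → ℝ | MvPolynomial.aeval s Q = 0} := by
      rw [ae_all_iff]
      intro n
      have := Pool.Agent.Q233.GLV.poly_countable K n
      rw [ae_all_iff]
      intro Q
      by_cases hQ : Q = 0
      · exact Eventually.of_forall fun φ h => absurd hQ h
      · filter_upwards [htup n _ (Pool.Agent.H23.RM.mv_null' K Q hQ)] with φ h _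
        exact h
    filter_upwards [h5] with φ h x hx
    refine Pool.Agent.Q233.GLV.alg_ind K _ fun n f hf Q hQ => ?_
    exact h n Q hQ x hx (fun l => (f l).1) (fun l m hlm => hf (Subtype.ext hlm)) fun l => (f l).2
  · intro x hx n N hN
    constructor
    · have h2 : (fun φ => correlation n (x φ) N) =ᵐ[P] fun _ => 0 := by
        filter_upwards [htup n N hN] with φ h
        exact correlation_zero (h (x φ) (hx φ))
      rw [lintegral_congr_ae h2, lintegral_zero]
    · intro T
      have h2 : (fun φ => differences n T (x φ) N) =ᵐ[P] fun _ => 0 := by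
        filter_upwards [htup (n + 1) _ (Pool.Agent.H23.RM.diff_null hN)] with φ h
        exact differences_zero (h (x φ) (hx φ))
      rw [lintegral_congr_ae h2, lintegral_zero]

end Pool.Agent.Results.MP_a825e8_mp.JointLaws
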