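import Pool.Agent.H23.LR.Fin4
import Pool.Agent.H15.UC.Cont
import Pool.Agent.H15.UC.Ucp
import Pool.Agent.H15.UC.Plane
import Pool.Agent.H51.UC.Cell
import Pool.Agent.H51.UC.Gauss
import Pool.Agent.H68.UC.SeriesLow

/-!
# Level repulsion for random metrics on a closed surface: the exponent is that of the GOE

Let `(M, g)` be a closed connected surface with a continuous Riemannian metric and isothermal charts
(for instance a smooth metric of negative curvature). For a continuous function `φ` on `M` consider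
the metric `exp φ · g`, its Laplace eigenvalues `lam 0 ≤ lam 1 ≤ ...` and its unfolded levels
`x j = Area · lam j / (4 π)`. Let `φ` be random with the law `P` on `C(M)`, and let `S` be a set of
functions with dense linear span.

* Upper bound. If for all linearly independent `h`, `k` in `S` the law of `φ` is the law of
  `ψ + ξ₁ h + ξ₂ k`, where `ψ` is independent of the random vector `(ξ₁, ξ₂)`, which has a bounded
  density, then for every compact subset `K` of `C(M)` and every `q` the probability that `φ ∈ K` and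
  `x (q + 1) - x q ≤ ε` is at most `C ε ²`, and the mean on `K` of the pair correlation measure and of
  the measure of the nearest neighbour spacings at any height `T` give at most the mass `C ε ²` to
  `[-ε, ε]`.
* Lower bound. If a metric `exp φ₀ · g` has an exactly double eigenvalue, and if the law of `φ` is the
  law of `ψ + ξ₁ h + ξ₂ k` as before with a density which is bounded from below near a point such
  that `φ` is near `φ₀` with positive probability, then for the two levels `x q`, `x (q + 1)` which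
  meet at `φ₀` the probability of `x (q + 1) - x q ≤ ε` is at least `c ε ²`, `ε ≤ 1`, and the mean of
  the two measures at any height `T` above this level give at least the mass `c ε ²` to `[-ε, ε]`.
* Both bounds hold for all nondegenerate Gaussian measures `P` on `C(M)` (and all `φ₀`).
* For random series `φ = ∑ ξ n h n` with `∑ ‖h n‖ < ∞`, with dense linear span of the `h n` and with
  independent `ξ n` in `[-1, 1]` with bounded densities, the upper bound holds without the condition
  `φ ∈ K`, and the lower bound holds for all `φ₀ = ∑ t n h n` such that the density of `ξ n` is bounded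
  from below near `t n`.

So the exponent of the level repulsion of random metrics is `2`. This is the exponent of the GOE; for
Poisson statistics it is `1`.

Idea of the proof. The sum of the inverses of the positive levels up to `x q` is, up to a
quadratic error, a convex function on the planes of conformal factors parallel to `h`, `k` (Ky Fan's
maximum principle). Trial functions which rotate the eigenfunctions `u q`, `u (q + 1)` show more: the
graph lies above a cone with a fixed opening, up to the gap, at the points where the determinant of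
the two linear forms `∫ h (u_q² - u_(q+1)²) / 2`, `∫ h u_q u_(q+1)` in the directions `h`, `k` is not
small, and a function with bounded subgradients has such cones only at few points. If the two
eigenvalues are nearly equal then, by compactness, one of finitely many such determinants is bounded
from below; otherwise there would be a metric with a double eigenvalue and two eigenfunctions of
it, not zero, with product zero, which contradicts the unique continuation theorem (Carleman). For
the lower bound: where the determinant is not small the gap has, as long as it is positive, a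
derivative in the plane which is bounded from below; so it has a zero in the plane near every
point where it is small (minimize the sum of the gap and a small multiple of the distance).
-/

set_option autoImplicit false

open Set Filter Topology MeasureTheory ProbabilityTheory
open scoped ENNReal NNReal
open Pool.Agent.Y262.QE

noncomputable section

namespace Pool.Agent.Results.MP_a825e8_mp.LevelRepulsion

/-- `u 0, u 1, ...` is an orthonormal basis of `L² (μ)` which consists of eigenfunctions of the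
Laplacian of the surface `D` with the area `μ`; the eigenvalues `lam 0 ≤ lam 1 ≤ ...` are ordered -/
structure IsEigenbasis {M : Type} [MeasurableSpace M] (D : Data M) (μ : Measure M)
    (u : ℕ → M → ℝ) (lam : ℕ → ℝ) : Prop where
  eig : ∀ j, D.IsEig μ (lam j) (u j)
  mono : Monotone lam
  orth : ∀ i j, ∫ x, u i x * u j x ∂μ = if i = j then 1 else 0
  total : ∀ f : M → ℝ, MemLp f 2 μ → (∀ j, ∫ x, f x * u j x ∂μ = 0) → f =ᵐ[μ] 0

/-- the surface with the metric `exp φ · g` -/
def surf {M : Type} [TopologicalSpace M] (D : Data M) (φ : C(M, ℝ)) : Data M :=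
  D.conf fun x => Real.exp (φ x)

/-- the area of the metric `exp φ · g` -/
def area {M : Type} [TopologicalSpace M] [MeasurableSpace M] (μ : Measure M) (φ : C(M, ℝ)) :
    Measure M :=
  wm μ fun x => Real.exp (φ x)

/-- `x 0 ≤ x 1 ≤ ...` are the unfolded levels `Area · lam j / (4 π)` of the metric `exp φ · g` -/
def IsUnfolded {M : Type} [TopologicalSpace M] [MeasurableSpace M] (D : Data M) (μ : Measure M)
    (φ : C(M, ℝ)) (x : ℕ → ℝ) : Prop :=
  ∃ (u : ℕ → M → ℝ) (lam : ℕ → ℝ), IsEigenbasis (surf D φ) (area μ φ) u lam ∧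
    ∀ j, x j = (area μ φ).real univ * lam j / (4 * Real.pi)

/-- all the charts of the surface are isothermal: in the chart `i` the metric at `z` is
`‖D.A i z v‖ ²`, and it is a multiple of the flat metric `‖v‖ ²` -/
def Isothermal {M : Type} (D : Data M) : Prop :=
  ∀ i, ∀ z ∈ D.T i, ∃ c : ℝ, ∀ v, ‖D.A i z v‖ = c * ‖v‖

/-- `P` is the law of `ψ + ξ₁ h + ξ₂ k` with independent `ψ` and `(ξ₁, ξ₂)`, where `ψ` has the law `Q`
and the random vector `(ξ₁, ξ₂)` (the random point `ξ₁ + ξ₂ i` of the plane) has a law `ν` with a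
bounded density -/
def BoundedPlanarDensity {E : Type} [AddCommGroup E] [Module ℝ E] [MeasurableSpace E]
    (P : Measure E) (h k : E) : Prop :=
  ∃ (Q : Measure E) (ν : Measure ℂ) (c : ℝ≥0), IsProbabilityMeasure Q ∧
    IsProbabilityMeasure ν ∧ (∀ A, ν A ≤ c * volume A) ∧
    P = (Q.prod ν).map fun p => p.1 + (p.2.re • h + p.2.im • k)

/-- `P` is the law of `ψ + ξ₁ h + ξ₂ k` with independent `ψ` and `(ξ₁, ξ₂)`, where `ψ` has the law `Q`;
the law `ν` of the random vector `(ξ₁, ξ₂)` has a density which is at least `c > 0` on a disc around a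
point `ζ = (ζ₁, ζ₂)`, and `ψ + ζ₁ h + ζ₂ k` is near `φ₀` with positive probability -/
def PositivePlanarDensity {E : Type} [NormedAddCommGroup E] [NormedSpace ℝ E] [MeasurableSpace E]
    (P : Measure E) (h k φ₀ : E) : Prop :=
  ∃ (Q : Measure E) (ν : Measure ℂ) (ζ : ℂ) (r c : ℝ), IsProbabilityMeasure Q ∧
    IsProbabilityMeasure ν ∧ 0 < r ∧ 0 < c ∧
    (∀ A : Set ℂ, MeasurableSet A → A ⊆ Metric.closedBall ζ r →
      ENNReal.ofReal c * volume A ≤ ν A) ∧
    (∀ ρ > 0, 0 < Q (Metric.closedBall (φ₀ - (ζ.re • h + ζ.im • k)) ρ)) ∧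
    P = (Q.prod ν).map fun p => p.1 + (p.2.re • h + p.2.im • k)

/-- the pair correlation measure of the levels at the height `T`: `1 / T` times the sum of the unit
masses at the points `x j - x k` over the pairs of different indices `j`, `k` with
`x j ≤ T`, `x k ≤ T` -/
def pairCorrelation (T : ℝ) (x : ℕ → ℝ) : Measure ℝ :=
  ENNReal.ofReal T⁻¹ • Measure.sum fun p : {p : ℕ × ℕ // p.1 ≠ p.2 ∧ x p.1 ≤ T ∧ x p.2 ≤ T} =>
    Measure.dirac (x p.1.1 - x p.1.2)

/-- the measure of the nearest neighbour spacings at the height `T`: `1 / T` times the sum of the unit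
masses at the points `x (k + 1) - x k` over the indices `k` with `x k ≤ T` -/
def spacings (T : ℝ) (x : ℕ → ℝ) : Measure ℝ :=
  ENNReal.ofReal T⁻¹ • Measure.sum fun k : {k : ℕ // x k ≤ T} =>
    Measure.dirac (x (k.1 + 1) - x k.1)

/-- the upper bound for the levels `x φ 0 ≤ x φ 1 ≤ ...` and the random `φ` with the law `P` on the
set `K`: the probability that `φ ∈ K` and that the consecutive levels `x φ q`, `x φ (q + 1)` have a
distance at most `ε` is at most `C ε ²`, and the means on `K` of the pair correlation measure and of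
the measure of the spacings at the height `T` give at most the mass `C ε ²` to `[-ε, ε]`; here
`C = C(q)` or `C(T)` does not depend on `ε` -/
def UpperBound {E : Type} [MeasurableSpace E] (P : Measure E) (K : Set E) (x : E → ℕ → ℝ) : Prop :=
  (∀ q : ℕ, ∃ C : ℝ, ∀ ε > 0,
    P {φ | φ ∈ K ∧ x φ (q + 1) - x φ q ≤ ε} ≤ ENNReal.ofReal (C * ε ^ 2)) ∧
  ∀ T : ℝ, ∃ C : ℝ, ∀ ε > 0,
    ∫⁻ φ in K, pairCorrelation T (x φ) (Icc (-ε) ε) ∂P ≤ ENNReal.ofReal (C * ε ^ 2) ∧
    ∫⁻ φ in K, spacings T (x φ) (Iic ε) ∂P ≤ ENNReal.ofReal (C * ε ^ 2)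

/-- the lower bound near `φ₀`: if the levels `x φ₀ q`, `x φ₀ (q + 1)` are equal and different from all
other levels of `φ₀`, then the probability that `x φ q`, `x φ (q + 1)` have a distance at most `ε` is
at least `c ε ²`, `0 < ε ≤ 1`, and the means of the pair correlation measure and of the measure of the
spacings at any height `T > x φ₀ q` give at least the mass `c ε ²` to `[-ε, ε]`; here `c > 0` does not
depend on `ε` -/
def LowerBound {E : Type} [MeasurableSpace E] (P : Measure E) (φ₀ : E) (x : E → ℕ → ℝ) : Prop :=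
  ∀ q : ℕ, (∀ l, x φ₀ l = x φ₀ q ↔ l = q ∨ l = q + 1) →
    (∃ c > 0, ∀ ε : ℝ, 0 < ε → ε ≤ 1 →
      ENNReal.ofReal (c * ε ^ 2) ≤ P {φ | x φ (q + 1) - x φ q ≤ ε}) ∧
    ∀ T : ℝ, x φ₀ q < T → ∃ c > 0, ∀ ε : ℝ, 0 < ε → ε ≤ 1 →
      ENNReal.ofReal (c * ε ^ 2) ≤ ∫⁻ φ, pairCorrelation T (x φ) (Icc (-ε) ε) ∂P ∧
      ENNReal.ofReal (c * ε ^ 2) ≤ ∫⁻ φ, spacings T (x φ) (Iic ε) ∂P

/-- the law of the random series `∑ ξ n h n`, where the `ξ n` are independent with the laws `ν n` -/
def seriesLaw {E : Type} [AddCommGroup E] [Module ℝ E] [TopologicalSpace E] [MeasurableSpace E]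
    (h : ℕ → E) (ν : ℕ → Measure ℝ) : Measure E :=
  (Measure.infinitePi ν).map fun ξ : ℕ → ℝ => ∑' n, ξ n • h n

theorem result (M : Type) [MetricSpace M] [CompactSpace M] [ConnectedSpace M] [MeasurableSpace M]
    [BorelSpace M] (μ : Measure M) (D : Data M) (hD : D.IsSurf μ) (hiso : Isothermal D) :
    (∀ φ : C(M, ℝ), (surf D φ).IsSurf (area μ φ) ∧ ∃ x, IsUnfolded D μ φ x) ∧
    ∀ [MeasurableSpace C(M, ℝ)] [BorelSpace C(M, ℝ)] (x : C(M, ℝ) → ℕ → ℝ),
      (∀ φ, IsUnfolded D μ φ (x φ)) →
      -- the upper and the lower bound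
      (∀ (P : Measure C(M, ℝ)) [IsProbabilityMeasure P] (S : Set C(M, ℝ)),
        Dense (Submodule.span ℝ S : Set C(M, ℝ)) →
        ((∀ h ∈ S, ∀ k ∈ S, LinearIndependent ℝ ![h, k] → BoundedPlanarDensity P h k) →
          ∀ K : Set C(M, ℝ), IsCompact K → UpperBound P K x) ∧
        ∀ φ₀ : C(M, ℝ),
          (∀ h ∈ S, ∀ k ∈ S, LinearIndependent ℝ ![h, k] → PositivePlanarDensity P h k φ₀) →
          LowerBound P φ₀ x) ∧
      -- nondegenerate Gaussian measures
      (∀ (P : Measure C(M, ℝ)) [IsGaussian P],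
        (∀ L : StrongDual ℝ C(M, ℝ), L ≠ 0 → 0 < Var[L; P]) →
        (∀ K : Set C(M, ℝ), IsCompact K → UpperBound P K x) ∧
        ∀ φ₀ : C(M, ℝ), LowerBound P φ₀ x) ∧
      -- random series
      ∀ (h : ℕ → C(M, ℝ)) (ν : ℕ → Measure ℝ), (∀ n, IsProbabilityMeasure (ν n)) →
        Dense (Submodule.span ℝ (range h) : Set C(M, ℝ)) → Summable (fun n => ‖h n‖) →
        (∀ n, ν n (Icc (-1) 1)ᶜ = 0) → (∀ n, ∃ c : ℝ≥0, ∀ A, ν n A ≤ c * volume A) →
        IsProbabilityMeasure (seriesLaw h ν) ∧ UpperBound (seriesLaw h ν) univ x ∧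
        ∀ t : ℕ → ℝ, (∀ n, |t n| ≤ 1) →
          (∀ n, ∃ r c : ℝ, 0 < r ∧ 0 < c ∧ ∀ A : Set ℝ, MeasurableSet A →
            A ⊆ Icc (t n - r) (t n + r) → ENNReal.ofReal c * volume A ≤ ν n A) →
          LowerBound (seriesLaw h ν) (∑' n, t n • h n) x := by
  refine ⟨fun φ => ⟨(Pool.Agent.Y262.QE.tConf M μ D hD _
    (Real.continuous_exp.comp φ.continuous) fun x => Real.exp_pos _).1, ?_⟩, ?_⟩
  · obtain ⟨u, lam, h⟩ := Pool.Agent.Y264.QR.tEx M μ D hD inferInstance φ
    exact ⟨fun j => (area μ φ).real univ * lam j / (4 * Real.pi), u, lam,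
      ⟨h.eig, h.mono, h.orth, h.total⟩, fun j => rfl⟩
  intro _ _ x hx
  have hx' : Pool.Agent.H23.LR.Lev μ D x := by
    intro φ
    obtain ⟨u, lam, hu, hl⟩ := hx φ
    exact ⟨u, lam, ⟨hu.eig, hu.mono, hu.orth, hu.total⟩, hl⟩
  have hle : ∀ {F : Type} [MeasureSpace F] (ν : Measure F) (c : ℝ≥0),
      (∀ A, ν A ≤ c * volume A) → ν ≤ (c : ℝ≥0∞) • (volume : Measure F) := by
    intro F _ ν c h
    refine Measure.le_iff.2 fun A _ => ?_
    rw [Measure.smul_apply, smul_eq_mul]
    exact h A
  -- the upper bound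
  have hup : ∀ (P : Measure C(M, ℝ)) [IsProbabilityMeasure P] (S : Set C(M, ℝ)),
      Dense (Submodule.span ℝ S : Set C(M, ℝ)) →
      (∀ h ∈ S, ∀ k ∈ S, LinearIndependent ℝ ![h, k] → Pool.Agent.H23.UC.BdDir2 P h k) →
      ∀ K : Set C(M, ℝ), IsCompact K → UpperBound P K x := by
    intro P _ S hS hP K hK
    obtain ⟨g1, g2⟩ := Pool.Agent.H23.LR.lr_all Pool.Agent.H15.UC.stCont Pool.Agent.H15.UC.stUCP
      Pool.Agent.H15.UC.stPlane Pool.Agent.H51.UC.stCell hD hiso hS hP hK hx'
    exact ⟨g1, g2⟩
  -- the lower bound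
  have hlo : ∀ (P : Measure C(M, ℝ)) (S : Set C(M, ℝ)),
      Dense (Submodule.span ℝ S : Set C(M, ℝ)) → ∀ φ₀ : C(M, ℝ),
      (∀ h ∈ S, ∀ k ∈ S, LinearIndependent ℝ ![h, k] → Pool.Agent.H23.UC.LowDir2 P h k φ₀) →
      LowerBound P φ₀ x := by
    intro P S hS φ₀ hP q hdbl
    exact Pool.Agent.H23.LR.lr_low_all Pool.Agent.H15.UC.stCont Pool.Agent.H15.UC.stUCP hD hiso hS
      hP hx' hdbl
  refine ⟨fun P _ S hS => ⟨fun hP K hK => ?_, fun φ₀ hP => hlo P S hS φ₀ hP⟩,
    fun P _ hvar => ⟨fun K hK => ?_, fun φ₀ => ?_⟩, fun h ν hν hS hsum hν1 hνb => ?_⟩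
  · refine hup P S hS (fun h hh k hk hind => ?_) K hK
    obtain ⟨Q, ν, c, hQ, hν, hb, hPe⟩ := hP h hh k hk hind
    exact ⟨Q, ν, c, hQ, hν, ENNReal.coe_ne_top, hle ν c hb, hPe⟩
  · obtain ⟨S, hS, hP⟩ := Pool.Agent.H51.UC.stGauss C(M, ℝ) P hvar
    exact hup P S hS hP K hK
  · obtain ⟨S, hS, hP⟩ := Pool.Agent.H51.UC.stGaussLow C(M, ℝ) P hvar
    exact hlo P S hS φ₀ (hP φ₀)
  · have hνb' : ∀ n, ∃ c : ℝ≥0∞, c ≠ ⊤ ∧ ν n ≤ c • (volume : Measure ℝ) := by
      intro n
      obtain ⟨c, hc⟩ := hνb n
      exact ⟨c, ENNReal.coe_ne_top, hle _ c hc⟩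
    obtain ⟨hP, ⟨K, hK, hK0⟩, hd⟩ := Pool.Agent.H68.UC.stSeries C(M, ℝ) h ν hνb' hν1 hsum
    have hne : ∀ n k : ℕ, LinearIndependent ℝ ![h n, h k] → n ≠ k := by
      intro n k hind hnk
      subst hnk
      rw [LinearIndependent.pair_iff] at hind
      have h1 := hind 1 (-1) (by rw [one_smul, neg_smul, one_smul, add_neg_cancel])
      exact one_ne_zero h1.1
    refine ⟨hP, ?_, fun t ht htb => ?_⟩
    · obtain ⟨g1, g2⟩ := Pool.Agent.H23.LR.lr_all_univ (P := (Measure.infinitePi ν).map
        fun ξ : ℕ → ℝ => ∑' n, ξ n • h n) Pool.Agent.H15.UC.stCont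
        Pool.Agent.H15.UC.stUCP Pool.Agent.H15.UC.stPlane Pool.Agent.H51.UC.stCell
        hD hiso hS (by
          rintro _ ⟨n, rfl⟩ _ ⟨k, rfl⟩ hind
          exact hd n k (hne n k hind)) hK hK0 hx'
      refine ⟨fun q => ?_, fun T => ?_⟩
      · obtain ⟨C, hC⟩ := g1 q
        refine ⟨C, fun ε hε => le_trans (le_of_eq ?_) (hC ε hε)⟩
        simp only [mem_univ, true_and]
        rfl
      · obtain ⟨C, hC⟩ := g2 T
        refine ⟨C, fun ε hε => ?_⟩
        rw [Measure.restrict_univ]
        exact hC ε hε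
    · refine hlo _ (range h) hS _ ?_
      rintro _ ⟨n, rfl⟩ _ ⟨k, rfl⟩ hind
      exact Pool.Agent.H68.UC.stSeriesLow C(M, ℝ) h ν t hν1 hsum ht htb n k (hne n k hind)

end Pool.Agent.Results.MP_a825e8_mp.LevelRepulsion
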