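import Pool.Agent.H15.WR.Step
import Pool.Graph.R_seed8.Q205.Lim.Surf

/-!
# Generic continuous metrics: no remainder term in Weyl's law

Let `(M, g)` be a closed surface with a continuous Riemannian metric (for instance a smooth metric
of negative curvature). For `φ ∈ C(M)` let `x φ 0 ≤ x φ 1 ≤ ...` be the unfolded levels of the metric
`exp φ · g` and `N(T)` the number of `k` with `x φ k ≤ T`.

* Weyl's law `N(T) / T → 1` holds for every `φ`: the unfolded levels have mean spacing one.
* There is no remainder term: if `ψ(T) / T → 0`, however slowly, then for generic `φ ∈ C(M)` (a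
  residual set for uniform convergence) there are arbitrarily large `T` with `N(T) > T + ψ(T)`.
* Weyl's law is nowhere locally uniform: for every `φ₀` and `ε > 0` there is `θ > 0` such that for
  all large `Λ` some metric `exp φ · g` with `‖φ - φ₀‖ < ε` has more than `(1 + θ)` times as many
  eigenvalues below `Λ` as Weyl's law predicts.

Idea of the proof. The surface is covered by small almost isometric squares up to a small set. On a
square of side `1` (after rescaling) the conformal factor is multiplied by `1 + δ cos (p π x)`, where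
the wave length of the pattern is a little shorter than half the wave length `2 π / √Λ`, so all
frequencies of the products of two eigenfunctions are smaller than `p`. For the test functions
`(1 + a cos (p π x)) sin (j π x) sin (l π y)`, `a = δ / 9`, all oscillating terms drop out, and the
mean values show that the pattern gains the factor `1 + δ² / 20`: the square has as many eigenvalues
below `Λ` as the flat square below `(1 + δ² / 20) Λ`, although its area is the same.
-/

set_option autoImplicit false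

open Set Filter Topology MeasureTheory
open Pool.Agent.Y262.QE

noncomputable section

namespace Pool.Agent.Results.MP_a825e8_mp.WeylRemainder

/-- `u 0, u 1, ...` is an orthonormal basis of `L² (μ)` which consists of eigenfunctions of the
Laplacian of the surface `D` with the area `μ`; the eigenvalues `lam 0 ≤ lam 1 ≤ ...` are ordered -/
structure IsEigenbasis {M : Type} [MeasurableSpace M] (D : Data M) (μ : Measure M)
    (u : ℕ → M → ℝ) (lam : ℕ → ℝ) : Prop where
  eig : ∀ j, D.IsEig μ (lam j) (u j)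
  mono : Monotone lam
  orth : ∀ i j, ∫ x, u i x * u j x ∂μ = if i = j then 1 else 0
  total : ∀ f : M → ℝ, MemLp f 2 μ → (∀ j, ∫ x, f x * u j x ∂μ = 0) → f =ᵐ[μ] 0

/-- the surface with the metric `exp φ · g` -/
def surf {M : Type} [TopologicalSpace M] (D : Data M) (φ : C(M, ℝ)) : Data M :=
  D.conf fun x => Real.exp (φ x)

/-- the area of the metric `exp φ · g` -/
def area {M : Type} [TopologicalSpace M] [MeasurableSpace M] (μ : Measure M) (φ : C(M, ℝ)) :
    Measure M :=
  wm μ fun x => Real.exp (φ x)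

/-- the main term of Weyl's law for the metric `exp φ · g`: the unfolded level which belongs to the
eigenvalue `Λ` -/
def unfold {M : Type} [TopologicalSpace M] [MeasurableSpace M] (μ : Measure M) (φ : C(M, ℝ))
    (Λ : ℝ) : ℝ :=
  (area μ φ).real univ * Λ / (4 * Real.pi)

/-- `x 0 ≤ x 1 ≤ ...` are the unfolded levels of the metric `exp φ · g` -/
def IsUnfolded {M : Type} [TopologicalSpace M] [MeasurableSpace M] (D : Data M) (μ : Measure M)
    (φ : C(M, ℝ)) (x : ℕ → ℝ) : Prop :=
  ∃ (u : ℕ → M → ℝ) (lam : ℕ → ℝ), IsEigenbasis (surf D φ) (area μ φ) u lam ∧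
    ∀ k, x k = unfold μ φ (lam k)

/-- the number of `k` with `x k ≤ T` -/
def number (T : ℝ) (x : ℕ → ℝ) : ℕ := Set.ncard {k : ℕ | x k ≤ T}

theorem number_ge {x : ℕ → ℝ} (hm : Monotone x) (ht : Tendsto x atTop atTop) {T : ℝ} {j : ℕ}
    (h : x j ≤ T) : j + 1 ≤ number T x := by
  have hfin : {k : ℕ | x k ≤ T}.Finite := by
    obtain ⟨n, hn⟩ := (ht.eventually_gt_atTop T).exists
    refine (Set.finite_lt_nat n).subset fun k hk => ?_
    by_contra hc
    have h1 : n ≤ k := by
      simp only [mem_ofPred_eq, not_lt] at hc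
      exact hc
    have h2 := hm h1
    have h3 : x k ≤ T := hk
    linarith
  have h1 : ((Finset.range (j + 1) : Finset ℕ) : Set ℕ).ncard ≤ number T x := by
    refine Set.ncard_le_ncard (fun k hk => ?_) hfin
    rw [Finset.mem_coe, Finset.mem_range] at hk
    exact (hm (by omega : k ≤ j)).trans h
  rwa [Set.ncard_coe_finset, Finset.card_range] at h1

theorem result (M : Type) [MetricSpace M] [CompactSpace M] [MeasurableSpace M] [BorelSpace M]
    [Nonempty M] (μ : Measure M) (D : Data M) (hD : D.IsSurf μ) :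
    (∀ φ : C(M, ℝ), (surf D φ).IsSurf (area μ φ) ∧ ∃ x, IsUnfolded D μ φ x) ∧
    ∀ x : C(M, ℝ) → ℕ → ℝ, (∀ φ, IsUnfolded D μ φ (x φ)) →
      -- Weyl's law
      (∀ φ, Tendsto (fun T : ℝ => (number T (x φ) : ℝ) / T) atTop (𝓝 1)) ∧
      -- there is no remainder term
      (∀ ψ : ℝ → ℝ, Tendsto (fun T => ψ T / T) atTop (𝓝 0) →
        (∀ T₀ : ℝ, ∃ O : Set C(M, ℝ), IsOpen O ∧ Dense O ∧ ∀ φ ∈ O, ∃ T, T₀ < T ∧
          T + ψ T < number T (x φ)) ∧
        ∀ᶠ φ in residual C(M, ℝ), ∀ T₀ : ℝ, ∃ T, T₀ < T ∧ T + ψ T < number T (x φ)) ∧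
      -- Weyl's law is nowhere locally uniform
      ∀ (φ₀ : C(M, ℝ)) (ε : ℝ), 0 < ε → ∃ θ : ℝ, 0 < θ ∧ ∀ᶠ Λ : ℝ in atTop,
        ∃ φ : C(M, ℝ), ‖φ - φ₀‖ < ε ∧
          (1 + θ) * unfold μ φ Λ < number (unfold μ φ Λ) (x φ) := by
  obtain ⟨hf, -⟩ := tFin M μ D hD
  haveI := hf
  obtain ⟨i, a, hSf, hi, ha⟩ := Pool.Agent.Y264.QR.tPackF M μ D hD inferInstance
  obtain ⟨b, hB, hF, hpos, hcmp, -⟩ :=
    Pool.Agent.Y264.QR.tFm M μ (Pool.Agent.Y264.QR.HF D μ) i a hSf
  obtain ⟨-, -, -, hcont, -⟩ :=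
    Pool.Agent.Y264.QR.tLip M μ (Pool.Agent.Y264.QR.HF D μ) a b hF hcmp
  have hW := Pool.Agent.Y264.QR.tWl M μ D hD inferInstance i a b hSf hi ha hB
  have hπ := Real.pi_pos
  have harea : ∀ φ : C(M, ℝ), (area μ φ).real univ = Pool.Agent.Q233.CPC.ar μ φ := by
    intro φ
    have hm : Measurable fun x => Real.exp (φ x) :=
      (Real.continuous_exp.comp φ.continuous).measurable
    have h5 : (area μ φ).real univ = ∫ x, (1 : ℝ) ∂(wm μ fun x => Real.exp (φ x)) := by
      simp [area]
    rw [h5, integral_wm μ _ hm fun x => (Real.exp_pos _).le]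
    simp [Pool.Agent.Q233.CPC.ar]
  refine ⟨fun φ => ⟨(tConf M μ D hD _
    (Real.continuous_exp.comp φ.continuous) fun x => Real.exp_pos _).1, ?_⟩, ?_⟩
  · obtain ⟨u, lam, h⟩ := Pool.Agent.Y264.QR.tEx M μ D hD inferInstance φ
    exact ⟨fun k => unfold μ φ (lam k), u, lam, ⟨h.eig, h.mono, h.orth, h.total⟩, fun k => rfl⟩
  intro x hx
  have hxE : ∀ φ k, x φ k = unfold μ φ (Ev a (b φ) k) := by
    intro φ k
    obtain ⟨u, lam, hu, hxk⟩ := hx φ
    obtain ⟨e, -, he2⟩ := Pool.Agent.Y264.QR.tBr M μ D hD i a b hSf hi ha hB hF φ u lam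
      ⟨hu.eig, hu.mono, hu.orth, hu.total⟩
    rw [hxk, Pool.Agent.Y592.QE.mm _ a (b φ) (hF φ) e lam he2 k]
  have hA0 : ∀ φ, 0 < (area μ φ).real univ := fun φ => by
    rw [harea]
    exact hpos φ
  have hmt : ∀ φ, Monotone (x φ) ∧ Tendsto (x φ) atTop atTop := by
    intro φ
    obtain ⟨u, lam, hu, hxk⟩ := hx φ
    obtain ⟨e, -, he2⟩ := Pool.Agent.Y264.QR.tBr M μ D hD i a b hSf hi ha hB hF φ u lam
      ⟨hu.eig, hu.mono, hu.orth, hu.total⟩
    have hc : 0 < (area μ φ).real univ / (4 * Real.pi) := by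
      have := hA0 φ
      positivity
    have e1 : x φ = fun k => (area μ φ).real univ / (4 * Real.pi) * lam k := by
      funext k
      rw [hxk, unfold]
      ring
    rw [e1]
    exact ⟨fun k l hkl => mul_le_mul_of_nonneg_left (hu.mono hkl) hc.le,
      he2.tt.const_mul_atTop hc⟩
  have hstep : ∀ (φ₀ : C(M, ℝ)) (ε : ℝ), 0 < ε → ∃ θ : ℝ, 0 < θ ∧ ∀ᶠ Λ : ℝ in atTop,
      ∃ φ : C(M, ℝ), ‖φ - φ₀‖ < ε ∧ ∃ j : ℕ, (1 + θ) ^ 2 * unfold μ φ Λ < (j : ℝ) + 1 ∧
        x φ j ≤ unfold μ φ Λ := by
    intro φ₀ ε hε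
    obtain ⟨θ, hθ, h⟩ := Pool.Agent.H15.WR.step hD hi ha hB φ₀ hε
    refine ⟨θ, hθ, ?_⟩
    filter_upwards [h] with Λ ⟨φ, h1, j, h2, h3⟩
    refine ⟨φ, h1, j, ?_, ?_⟩
    · rw [unfold, harea]
      exact h2
    · rw [hxE, unfold, unfold]
      have := hA0 φ
      gcongr
  refine ⟨fun φ => ?_, ?_, ?_⟩
  · -- Weyl's law
    have h := Pool.Agent.Q205.Baire.count_div
      (Pool.Agent.Q205.Baire.spectra μ a b hF hpos hcmp hW (id : C(M, ℝ) → C(M, ℝ)) continuous_id) φ
      (Pool.Agent.Q205.Baire.unf_div μ a b hpos hW φ)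
    have e : x φ = fun k => (Pool.Agent.Q205.Baire.spectra μ a b hF hpos hcmp hW
        (id : C(M, ℝ) → C(M, ℝ)) continuous_id).x k φ := by
      funext k
      rw [hxE, unfold, harea]
      show Pool.Agent.Q233.CPC.ar μ φ * Ev a (b φ) k / (4 * Real.pi) =
        (∫ x, Real.exp (φ x) ∂μ) / (4 * Real.pi) * Ev a (b φ) k
      unfold Pool.Agent.Q233.CPC.ar
      ring
    rw [e]
    exact h
  · intro ψ hψ
    have key : ∀ T₀ : ℝ, ∃ O : Set C(M, ℝ), IsOpen O ∧ Dense O ∧ ∀ φ ∈ O, ∃ T, T₀ < T ∧
        T + ψ T < number T (x φ) := by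
      intro T₀
      refine ⟨{φ | ∃ T, T₀ < T ∧ ∃ j : ℕ, T + ψ T < (j : ℝ) + 1 ∧ x φ j < T}, ?_, ?_, ?_⟩
      · rw [isOpen_iff_mem_nhds]
        rintro φ ⟨T, h1, j, h2, h3⟩
        have hc : Continuous fun φ => x φ j := by
          have e : (fun φ => x φ j) = fun φ => Pool.Agent.Q233.CPC.ar μ φ *
              Ev a (b φ) j / (4 * Real.pi) := by
            funext φ
            rw [hxE, unfold, harea]
          rw [e]
          exact (Pool.Agent.Q233.CPC.ar_cont.mul (hcont j)).div_const _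
        filter_upwards [hc.continuousAt.eventually_lt_const h3] with φ' h4
        exact ⟨T, h1, j, h2, h4⟩
      · rw [Metric.dense_iff]
        intro φ₀ ε hε
        obtain ⟨θ, hθ, h⟩ := hstep φ₀ ε hε
        -- the area is bounded from below
        have hlow : ∀ φ : C(M, ℝ), ‖φ - φ₀‖ < ε →
            Real.exp (-ε) * (area μ φ₀).real univ ≤ (area μ φ).real univ := by
          intro φ hφ
          rw [harea, harea]
          have h1 : Pool.Agent.Q233.CPC.ar μ φ₀ ≤ Real.exp ε * Pool.Agent.Q233.CPC.ar μ φ := by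
            refine Pool.Agent.Q233.CPC.ar_le ?_
            rw [norm_sub_rev]
            exact hφ.le
          rw [Real.exp_neg, inv_mul_le_iff₀ (Real.exp_pos _)]
          exact h1
        -- `ψ T < θ T`
        have hψ1 : ∀ᶠ T in atTop, T₀ < T ∧ T + ψ T < (1 + θ) * T := by
          filter_upwards [hψ.eventually_lt_const hθ, eventually_gt_atTop 0,
            eventually_gt_atTop T₀] with T h1 h2 h3
          rw [div_lt_iff₀ h2] at h1
          exact ⟨h3, by linarith⟩
        obtain ⟨T₁, hT₁⟩ := eventually_atTop.1 hψ1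
        have hc0 : 0 < Real.exp (-ε) * (area μ φ₀).real univ / (4 * Real.pi) := by
          have := hA0 φ₀
          positivity
        have hbig : ∀ᶠ Λ : ℝ in atTop, T₁ ≤
            Real.exp (-ε) * (area μ φ₀).real univ / (4 * Real.pi) * Λ :=
          (tendsto_id.const_mul_atTop hc0).eventually_ge_atTop T₁
        obtain ⟨Λ, ⟨φ, h1, j, h2, h3⟩, h4, h5⟩ :=
          (h.and (hbig.and (eventually_gt_atTop 0))).exists
        refine ⟨φ, ?_, (1 + θ) * unfold μ φ Λ, ?_, j, ?_, ?_⟩
        · rw [Metric.mem_ball, dist_eq_norm]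
          exact h1
        all_goals
          have hU : 0 < unfold μ φ Λ := by
            rw [unfold]
            have := hA0 φ
            positivity
          have hU1 : T₁ ≤ (1 + θ) * unfold μ φ Λ := by
            have h6 : Real.exp (-ε) * (area μ φ₀).real univ / (4 * Real.pi) * Λ ≤
                unfold μ φ Λ := by
              rw [unfold]
              calc Real.exp (-ε) * (area μ φ₀).real univ / (4 * Real.pi) * Λ =
                    (Real.exp (-ε) * (area μ φ₀).real univ) * Λ / (4 * Real.pi) := by ring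
                _ ≤ _ := by
                  have := hlow φ h1
                  gcongr
            nlinarith
        · exact (hT₁ _ hU1).1
        · refine (hT₁ _ hU1).2.trans ?_
          calc (1 + θ) * ((1 + θ) * unfold μ φ Λ) = (1 + θ) ^ 2 * unfold μ φ Λ := by ring
            _ < _ := h2
        · nlinarith
      · rintro φ ⟨T, h1, j, h2, h3⟩
        refine ⟨T, h1, h2.trans_le ?_⟩
        have h4 := number_ge (hmt φ).1 (hmt φ).2 h3.le
        exact_mod_cast h4
    refine ⟨key, ?_⟩
    choose O h1 h2 h3 using fun n : ℕ => key n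
    have h4 : ∀ᶠ φ in residual C(M, ℝ), ∀ n, φ ∈ O n := by
      rw [eventually_countable_forall]
      exact fun n => residual_of_dense_open (h1 n) (h2 n)
    filter_upwards [h4] with φ hφ T₀
    obtain ⟨n, hn⟩ := exists_nat_ge T₀
    obtain ⟨T, h5, h6⟩ := h3 n φ (hφ n)
    exact ⟨T, by linarith, h6⟩
  · intro φ₀ ε hε
    obtain ⟨θ, hθ, h⟩ := hstep φ₀ ε hε
    refine ⟨θ, hθ, ?_⟩
    filter_upwards [h, eventually_gt_atTop 0] with Λ ⟨φ, h1, j, h2, h3⟩ hΛ
    refine ⟨φ, h1, ?_⟩
    have hU : 0 < unfold μ φ Λ := by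
      rw [unfold]
      have := hA0 φ
      positivity
    have h4 : ((j + 1 : ℕ) : ℝ) ≤ number (unfold μ φ Λ) (x φ) := by
      exact_mod_cast number_ge (hmt φ).1 (hmt φ).2 h3
    push_cast at h4
    nlinarith

end Pool.Agent.Results.MP_a825e8_mp.WeylRemainder
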